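import Pool.Agent.Lib.PNT.Tauber

/-!
The prime number theorem, also in arithmetic progressions.
-/

set_option autoImplicit false

namespace Pool.Agent.Lib.PNT

open MeasureTheory Filter Topology Complex Real Set Asymptotics

/-- The Wiener-Ikehara theorem for nonnegative sequences with linearly bounded partial sums. -/
theorem wiener_ikehara {a : ℕ → ℝ} {C c : ℝ} (ha : ∀ n, 0 ≤ a n) (hc : 0 ≤ c)
    (hC : ∀ n : ℕ, ∑ k ∈ Finset.Icc 1 n, a k ≤ C * n) {G : ℂ → ℂ}
    (hG : ContinuousOn G {s | 1 ≤ s.re})
    (hGL : ∀ s : ℂ, 1 < s.re → G s = LSeries (fun n => (a n : ℂ)) s - c / (s - 1)) :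
    Tendsto (fun x : ℝ => (∑ k ∈ Finset.Icc 1 ⌊x⌋₊, a k) / x) atTop (𝓝 c) := by
  let A : ℝ → ℝ := fun x => ∑ k ∈ Finset.Icc 1 ⌊x⌋₊, a k
  have hA0 : ∀ x, 0 ≤ A x := fun x => Finset.sum_nonneg fun k _ => ha k
  have hAm : Monotone A := fun x y hxy => Finset.sum_le_sum_of_subset_of_nonneg
    (Finset.Icc_subset_Icc_right (Nat.floor_mono hxy)) (fun k _ _ => ha k)
  have hC0 : 0 ≤ C := by
    have := hC 1
    have := ha 1
    simp at *
    linarith
  have hAC : ∀ x, 0 ≤ x → A x ≤ C * x := fun x hx =>
    (hC _).trans (mul_le_mul_of_nonneg_left (Nat.floor_le hx) hC0)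
  let g : ℝ → ℝ := fun u => A (Real.exp u) / Real.exp u
  have hgm : Measurable g := (hAm.measurable.comp Real.measurable_exp).div Real.measurable_exp
  have hg0 : ∀ u, 0 ≤ g u := fun u => div_nonneg (hA0 _) (Real.exp_pos _).le
  have hgC : ∀ u, g u ≤ C := fun u => by
    simp only [g]
    rw [div_le_iff₀ (Real.exp_pos _)]
    exact hAC _ (Real.exp_pos _).le
  have hO : (fun n : ℕ => ∑ k ∈ Finset.Icc 1 n, a k) =O[atTop] fun n : ℕ => (n : ℝ) ^ (1 : ℝ) := by
    refine IsBigO.of_bound C (Eventually.of_forall fun n => ?_)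
    rw [Real.norm_of_nonneg (Finset.sum_nonneg fun k _ => ha k), Real.rpow_one,
      Real.norm_of_nonneg (Nat.cast_nonneg _)]
    exact hC n
  have hlim : Tendsto g atTop (𝓝 c) := by
    refine ikehara hgm hg0 hgC hc (fun u v huv => ?_) (H := fun s => (G (s + 1) - c) / (s + 1))
      ?_ (fun s hs => ?_)
    · simp only [g]
      rw [Real.exp_sub, div_mul_div_comm, mul_comm (Real.exp v), mul_div_mul_left _ _
        (Real.exp_pos u).ne']
      gcongr
      exact hAm (Real.exp_le_exp.2 huv)
    · refine ContinuousOn.div (ContinuousOn.sub (hG.comp (by fun_prop) fun s hs => ?_)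
        continuousOn_const) (by fun_prop) fun s hs h => ?_
      · simpa using hs
      · have := congrArg Complex.re h
        have hs' : 0 ≤ s.re := hs
        simp at this
        linarith
    · have hs1 : 1 < (s + 1).re := by simpa using hs
      have hs0 : s ≠ 0 := fun h => by simp [h] at hs
      have hs2 : s + 1 ≠ 0 := fun h => by rw [h] at hs1; norm_num at hs1
      have h1 := LSeries_eq_mul_integral_of_nonneg a zero_le_one hs1 hO ha
      have h2 := integral_comp_exp_Ioi
        (fun t : ℝ => (∑ k ∈ Finset.Icc 1 ⌊t⌋₊, (a k : ℂ)) * (t : ℂ) ^ (-(s + 1 + 1))) 0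
      rw [Real.exp_zero] at h2
      have h3 : ∀ u : ℝ, Real.exp u • ((∑ k ∈ Finset.Icc 1 ⌊Real.exp u⌋₊, (a k : ℂ)) *
          ((Real.exp u : ℝ) : ℂ) ^ (-(s + 1 + 1))) = cexp (-s * u) * (g u : ℂ) := by
        intro u
        have e1 : ((Real.exp u : ℝ) : ℂ) ^ (-(s + 1 + 1)) = cexp (u * (-(s + 1 + 1))) := by
          rw [Complex.cpow_def_of_ne_zero (by exact_mod_cast (Real.exp_pos u).ne'),
            ← Complex.ofReal_log (Real.exp_pos u).le, Real.log_exp]
        have e2 : cexp (u * (-(s + 1 + 1))) = cexp (-s * u) / (cexp u * cexp u) := by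
          rw [← Complex.exp_add, ← Complex.exp_sub]; congr 1; ring
        rw [e1, e2, real_smul]
        simp only [g, A]
        push_cast
        have := Complex.exp_ne_zero u
        field_simp
      simp_rw [h3] at h2
      have hi : IntegrableOn (fun u : ℝ => cexp (-s * u)) (Ioi 0) :=
        integrableOn_exp_mul_complex_Ioi (by simpa using hs) 0
      have hi1 : IntegrableOn (fun u : ℝ => cexp (-s * u) * (g u : ℂ)) (Ioi 0) :=
        Integrable.mul_bdd (c := C) hi (Complex.measurable_ofReal.comp hgm).aestronglyMeasurable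
          (Eventually.of_forall fun u => by
            rw [norm_real, Real.norm_of_nonneg (hg0 u)]; exact hgC u)
      have h4 : ∫ u in Ioi (0 : ℝ), cexp (-s * u) * ((g u - c : ℝ) : ℂ) =
          (∫ u in Ioi (0 : ℝ), cexp (-s * u) * (g u : ℂ)) - (∫ u in Ioi (0 : ℝ), cexp (-s * u)) * c := by
        rw [← integral_mul_const, ← integral_sub hi1 (hi.mul_const _)]
        congr 1; funext u; push_cast; ring
      rw [h4, integral_exp_mul_complex_Ioi (by simpa using hs), h2, hGL _ hs1, h1]
      simp only [add_sub_cancel_right, ofReal_zero, mul_zero, Complex.exp_zero]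
      field_simp
      ring
  refine (hlim.comp Real.tendsto_log_atTop).congr' ?_
  filter_upwards [eventually_gt_atTop 0] with x hx
  simp only [Function.comp, g, Real.exp_log hx, A]

open ArithmeticFunction ArithmeticFunction.vonMangoldt

lemma psi_eq_sum_Icc_one (x : ℝ) : Chebyshev.psi x = ∑ k ∈ Finset.Icc 1 ⌊x⌋₊, vonMangoldt k := rfl

/-- The prime number theorem in arithmetic progressions, for the von Mangoldt function. -/
theorem residueClass_tendsto {q : ℕ} [NeZero q] {a : ZMod q} (ha : IsUnit a) :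
    Tendsto (fun x : ℝ => (∑ k ∈ Finset.Icc 1 ⌊x⌋₊, residueClass a k) / x) atTop
      (𝓝 ((q.totient : ℝ)⁻¹)) := by
  refine wiener_ikehara (C := Real.log 4 + 4) (residueClass_nonneg a) (by positivity) (fun n => ?_)
    (continuousOn_LFunctionResidueClassAux a) (fun s hs => ?_)
  · have := Chebyshev.psi_le_const_mul_self (x := n) (Nat.cast_nonneg n)
    rw [psi_eq_sum_Icc_one, Nat.floor_natCast] at this
    exact (Finset.sum_le_sum fun k _ => residueClass_le a k).trans this
  · rw [eqOn_LFunctionResidueClassAux ha hs]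
    push_cast; rfl

/-- The prime number theorem for `ψ`. -/
theorem psi_tendsto : Tendsto (fun x : ℝ => Chebyshev.psi x / x) atTop (𝓝 1) := by
  have := residueClass_tendsto (q := 1) (a := 1) isUnit_one
  simp only [Nat.totient_one, Nat.cast_one, inv_one] at this
  refine this.congr fun x => ?_
  rw [psi_eq_sum_Icc_one]
  congr 1
  refine Finset.sum_congr rfl fun k _ => ?_
  exact Set.indicator_of_mem (show k ∈ {n : ℕ | (n : ZMod 1) = 1} from Subsingleton.elim _ _) _

lemma psi_sub_theta_tendsto :
    Tendsto (fun x : ℝ => (Chebyshev.psi x - Chebyshev.theta x) / x) atTop (𝓝 0) := by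
  have h1 : (fun x : ℝ => Real.sqrt x) =o[atTop] fun x => x := by
    rw [isLittleO_iff_tendsto' (by simp +contextual)]
    refine Tendsto.congr' (f₁ := fun x => (Real.sqrt x)⁻¹) ?_
      Real.tendsto_sqrt_atTop.inv_tendsto_atTop
    filter_upwards [eventually_gt_atTop 0] with x hx
    rw [Real.sqrt_div_self]
  exact (Chebyshev.isBigO_psi_sub_theta_sqrt.trans_isLittleO h1).tendsto_div_nhds_zero

/-- The prime number theorem for `θ`. -/
theorem theta_tendsto : Tendsto (fun x : ℝ => Chebyshev.theta x / x) atTop (𝓝 1) := by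
  have := psi_tendsto.sub psi_sub_theta_tendsto
  rw [sub_zero] at this
  exact this.congr fun x => by ring

/-- The prime number theorem. -/
theorem primeCounting_tendsto :
    Tendsto (fun x : ℝ => (Nat.primeCounting ⌊x⌋₊ : ℝ) * Real.log x / x) atTop (𝓝 1) := by
  have h1 : (fun x : ℝ => x / Real.log x ^ 2) =o[atTop] fun x => x / Real.log x := by
    refine isLittleO_iff_tendsto' (by simp) |>.mpr ?_
    refine Tendsto.congr' (f₁ := fun x => (Real.log x)⁻¹) ?_
      Real.tendsto_log_atTop.inv_tendsto_atTop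
    filter_upwards [eventually_gt_atTop 0] with x _
    field
  have h2 := (Chebyshev.primeCounting_sub_theta_div_log_isBigO.trans_isLittleO
    h1).tendsto_div_nhds_zero
  have := h2.add theta_tendsto
  rw [zero_add] at this
  refine this.congr' ?_
  filter_upwards [eventually_gt_atTop 1] with x hx
  have := (Real.log_pos hx).ne'
  field_simp
  ring

/-- `log (lcm (1, ..., n)) / n → 1`. -/
theorem log_lcmUpto_tendsto :
    Tendsto (fun n : ℕ => Real.log (Nat.lcmUpto n) / n) atTop (𝓝 1) := by
  refine (psi_tendsto.comp tendsto_natCast_atTop_atTop).congr fun n => ?_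
  simp only [Function.comp, Chebyshev.psi_eq_log_lcmUpto]

/-- The sum of `log p` over the primes `p ≤ x` in the class `a` modulo `q`. -/
noncomputable def thetaAP {q : ℕ} (a : ZMod q) (x : ℝ) : ℝ :=
  ∑ p ∈ (Finset.Icc 1 ⌊x⌋₊).filter (fun p : ℕ => p.Prime ∧ (p : ZMod q) = a), Real.log p

/-- The prime number theorem in arithmetic progressions, for `θ`. -/
theorem thetaAP_tendsto {q : ℕ} [NeZero q] {a : ZMod q} (ha : IsUnit a) :
    Tendsto (fun x : ℝ => thetaAP a x / x) atTop (𝓝 ((q.totient : ℝ)⁻¹)) := by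
  have h1 := residueClass_tendsto ha
  have h2 := h1.sub psi_sub_theta_tendsto
  rw [sub_zero] at h2
  refine tendsto_of_tendsto_of_tendsto_of_le_of_le' h2 h1 ?_ ?_
  · filter_upwards [eventually_gt_atTop 0] with x hx
    rw [← sub_div]
    gcongr
    have e : Chebyshev.theta x = ∑ k ∈ Finset.Icc 1 ⌊x⌋₊, if k.Prime then Real.log k else 0 := by
      rw [← Finset.sum_filter]; rfl
    rw [psi_eq_sum_Icc_one, e, thetaAP, Finset.sum_filter, ← Finset.sum_sub_distrib,
      ← Finset.sum_sub_distrib]
    refine Finset.sum_le_sum fun k _ => ?_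
    have hk : 0 ≤ vonMangoldt k := vonMangoldt_nonneg
    by_cases h1 : (k : ZMod q) = a
    · rw [show residueClass a k = vonMangoldt k from Set.indicator_of_mem (show k ∈ {n : ℕ | (n : ZMod q) = a}
        from h1) _]
      by_cases h2 : k.Prime <;> simp [h1, h2]
    · rw [show residueClass a k = 0 from Set.indicator_of_notMem
        (show k ∉ {n : ℕ | (n : ZMod q) = a} from h1) _]
      by_cases h2 : k.Prime
      · simp [h1, h2, vonMangoldt_apply_prime h2]
      · simp [h1, h2]
  · filter_upwards [eventually_gt_atTop 0] with x hx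
    gcongr
    rw [thetaAP, Finset.sum_filter]
    refine Finset.sum_le_sum fun k _ => ?_
    split_ifs with h
    · rw [show residueClass a k = vonMangoldt k from Set.indicator_of_mem (show k ∈ {n : ℕ | (n : ZMod q) = a}
        from h.2) _, vonMangoldt_apply_prime h.1]
    · exact residueClass_nonneg a k

end Pool.Agent.Lib.PNT
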