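import Pool.Agent.Lib.PNT.Main

/-!
Weighted sums over primes: `(1/K) ∑_{αK < p ≤ βK} f(p/K) log p → ∫_α^β f` for every bounded `f`
that is continuous almost everywhere on `[α, β]` (that is, Riemann integrable).
-/

set_option autoImplicit false

namespace Pool.Agent.Lib.PNT

open MeasureTheory Filter Topology Real Set

lemma sum_indicator_Ioc {S : ℕ → ℝ} (hS : Monotone S) (m : ℕ) (y : ℝ) (m' : ℕ) (h : m ≤ m') :
    ∑ n ∈ Finset.Ioc m m', (Ioc (S (n - 1)) (S n)).indicator (fun _ => (1 : ℝ)) y =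
      (Ioc (S m) (S m')).indicator (fun _ => (1 : ℝ)) y := by
  induction m', h using Nat.le_induction with
  | base => simp
  | succ k hk ih =>
    rw [Finset.sum_Ioc_succ_top hk, ih, Nat.add_sub_cancel,
      ← Ioc_union_Ioc_eq_Ioc (hS hk) (hS (Nat.le_succ k)), indicator_union_of_disjoint]
    exact Ioc_disjoint_Ioc_of_le le_rfl

lemma scaled_tendsto {A : ℝ → ℝ} (hA0 : A 0 = 0) (hA : Tendsto (fun x => A x / x) atTop (𝓝 1))
    {t : ℝ} (ht : 0 ≤ t) : Tendsto (fun K => A (t * K) / K) atTop (𝓝 t) := by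
  rcases ht.eq_or_lt with rfl | ht
  · simp [hA0]
  · have := (hA.comp (tendsto_id.const_mul_atTop ht)).const_mul t
    rw [mul_one] at this
    refine this.congr' ?_
    filter_upwards [eventually_gt_atTop 0] with K hK
    simp only [Function.comp, id]
    field_simp

/-- Equidistribution of a nonnegative sequence with mean value one. -/
theorem weighted_sum_tendsto_one {a : ℕ → ℝ} (ha : ∀ n, 0 ≤ a n)
    (hA : Tendsto (fun x : ℝ => (∑ k ∈ Finset.Icc 1 ⌊x⌋₊, a k) / x) atTop (𝓝 1))
    {α β : ℝ} (hα : 0 ≤ α) (hαβ : α ≤ β) {f : ℝ → ℝ} {M : ℝ} (hM : ∀ x ∈ Ioc α β, |f x| ≤ M)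
    (hf : ∀ᵐ x, x ∈ Ioo α β → ContinuousAt f x) :
    Tendsto (fun K : ℝ => (∑ n ∈ Finset.Ioc ⌊α * K⌋₊ ⌊β * K⌋₊, f (n / K) * a n) / K) atTop
      (𝓝 (∫ x in α..β, f x)) := by
  let S : ℕ → ℝ := fun n => ∑ k ∈ Finset.Icc 1 n, a k
  have hS0 : ∀ n, 0 ≤ S n := fun n => Finset.sum_nonneg fun k _ => ha k
  have hS : Monotone S := fun x y hxy => Finset.sum_le_sum_of_subset_of_nonneg
    (Finset.Icc_subset_Icc_right hxy) (fun k _ _ => ha k)
  have hSs : ∀ n, 1 ≤ n → S n - S (n - 1) = a n := by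
    intro n hn
    obtain ⟨m, rfl⟩ : ∃ m, n = m + 1 := ⟨n - 1, by omega⟩
    simp only [S, Nat.add_sub_cancel]
    rw [Finset.sum_Icc_succ_top (by omega)]; ring
  have hlim : ∀ t, 0 ≤ t → Tendsto (fun K : ℝ => S ⌊t * K⌋₊ / K) atTop (𝓝 t) := fun t ht =>
    scaled_tendsto (A := fun x => S ⌊x⌋₊) (by simp [S]) hA ht
  let e : ℝ → ℕ → ℝ → ℝ := fun K n => (Ioc (S (n - 1) / K) (S n / K)).indicator fun _ => 1
  have he0 : ∀ K n y, 0 ≤ e K n y := fun K n y => indicator_nonneg (fun _ _ => zero_le_one) y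
  let g : ℝ → ℝ → ℝ := fun K y => ∑ n ∈ Finset.Ioc ⌊α * K⌋₊ ⌊β * K⌋₊, f (n / K) * e K n y
  have hsum : ∀ K, 0 < K → ∀ y, ∑ n ∈ Finset.Ioc ⌊α * K⌋₊ ⌊β * K⌋₊, e K n y =
      (Ioc (S ⌊α * K⌋₊ / K) (S ⌊β * K⌋₊ / K)).indicator (fun _ => (1 : ℝ)) y := by
    intro K hK y
    exact sum_indicator_Ioc (S := fun n => S n / K)
      (fun x y h => div_le_div_of_nonneg_right (hS h) hK.le) _ y _
      (Nat.floor_mono (mul_le_mul_of_nonneg_right hαβ hK.le))
  have hei : ∀ K n, Integrable (e K n) := fun K n =>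
    (integrable_indicator_iff measurableSet_Ioc).2 (integrableOn_const (by simp))
  have hmem : ∀ K, 0 < K → ∀ n ∈ Finset.Ioc ⌊α * K⌋₊ ⌊β * K⌋₊, (n : ℝ) / K ∈ Ioc α β := by
    intro K hK n hn
    rw [Finset.mem_Ioc] at hn
    constructor
    · rw [lt_div_iff₀ hK]
      exact (Nat.floor_lt (mul_nonneg hα hK.le)).1 hn.1
    · rw [div_le_iff₀ hK]
      exact (Nat.le_floor_iff (mul_nonneg (hα.trans hαβ) hK.le)).1 hn.2
  have hbound : ∀ K, 0 < K → ∀ y, |g K y| ≤
      |M| * (Ioc (S ⌊α * K⌋₊ / K) (S ⌊β * K⌋₊ / K)).indicator (fun _ => (1 : ℝ)) y := by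
    intro K hK y
    rw [← hsum K hK, Finset.mul_sum]
    refine (Finset.abs_sum_le_sum_abs _ _).trans (Finset.sum_le_sum fun n hn => ?_)
    rw [abs_mul, abs_of_nonneg (he0 K n y)]
    exact mul_le_mul_of_nonneg_right ((hM _ (hmem K hK n hn)).trans (le_abs_self M)) (he0 K n y)
  have hint : ∀ K, 0 < K → ∫ y, g K y =
      (∑ n ∈ Finset.Ioc ⌊α * K⌋₊ ⌊β * K⌋₊, f (n / K) * a n) / K := by
    intro K hK
    simp only [g]
    rw [integral_finsetSum _ (fun n _ => (hei K n).const_mul _), Finset.sum_div]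
    refine Finset.sum_congr rfl fun n hn => ?_
    rw [integral_const_mul, mul_div_assoc]
    congr 1
    simp only [e]
    rw [integral_indicator measurableSet_Ioc, setIntegral_const, Real.volume_real_Ioc_of_le
      (div_le_div_of_nonneg_right (hS (Nat.sub_le _ _)) hK.le), smul_eq_mul, mul_one, ← sub_div,
      hSs n (by have := (Finset.mem_Ioc.1 hn).1; omega)]
  have main : Tendsto (fun K => ∫ y, g K y) atTop (𝓝 (∫ y, (Ioc α β).indicator f y)) := by
    refine tendsto_integral_filter_of_dominated_convergence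
      (fun y => |M| * (Icc 0 (β + 1)).indicator (fun _ => (1 : ℝ)) y)
      (Eventually.of_forall fun K => (integrable_finsetSum _
        (fun n _ => (hei K n).const_mul _)).aestronglyMeasurable) ?_
      (((integrable_indicator_iff measurableSet_Icc).2 (integrableOn_const (by simp))).const_mul _)
      ?_
    · filter_upwards [eventually_gt_atTop 0,
        (hlim β (hα.trans hαβ)).eventually (gt_mem_nhds (lt_add_one β))] with K hK hK2
      refine Eventually.of_forall fun y => (hbound K hK y).trans ?_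
      refine mul_le_mul_of_nonneg_left ?_ (abs_nonneg _)
      have hsub : Ioc (S ⌊α * K⌋₊ / K) (S ⌊β * K⌋₊ / K) ⊆ Icc 0 (β + 1) := fun z hz =>
        ⟨(div_nonneg (hS0 _) hK.le).trans hz.1.le, hz.2.trans hK2.le⟩
      exact indicator_le_indicator_of_subset hsub (fun _ => zero_le_one) y
    · filter_upwards [hf, Measure.ae_ne volume α, Measure.ae_ne volume β] with y hy hyα hyβ
      by_cases hin : y ∈ Ioo α β
      · rw [indicator_of_mem (Ioo_subset_Ioc_self hin)]
        have hc := hy hin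
        rw [Metric.tendsto_nhds]
        intro ε hε
        obtain ⟨δ, hδ, hδf⟩ := Metric.continuousAt_iff.1 hc (ε / 2) (half_pos hε)
        set d := min (δ / 2) (y - α) with hd
        have hd0 : 0 < d := lt_min (half_pos hδ) (by linarith [hin.1])
        have hd1 : d ≤ δ / 2 := min_le_left _ _
        have hd2 : d ≤ y - α := min_le_right _ _
        filter_upwards [eventually_gt_atTop 0, (hlim α hα).eventually (gt_mem_nhds hin.1),
          (hlim β (hα.trans hαβ)).eventually (lt_mem_nhds hin.2),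
          (hlim (y - d) (by linarith)).eventually (gt_mem_nhds (show y - d < y by linarith)),
          (hlim (y + d) (by linarith)).eventually (lt_mem_nhds (show y < y + d by linarith))]
          with K hK h1 h2 h3 h4
        have hone : ∑ n ∈ Finset.Ioc ⌊α * K⌋₊ ⌊β * K⌋₊, e K n y = 1 := by
          rw [hsum K hK, indicator_of_mem (show y ∈ Ioc _ _ from ⟨h1, h2.le⟩)]
        have h5 : g K y - f y =
            ∑ n ∈ Finset.Ioc ⌊α * K⌋₊ ⌊β * K⌋₊, (f (n / K) - f y) * e K n y := by
          simp only [sub_mul, Finset.sum_sub_distrib, ← Finset.mul_sum, hone, mul_one, g]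
        rw [Real.dist_eq, h5]
        refine lt_of_le_of_lt ?_ (half_lt_self hε)
        refine (Finset.abs_sum_le_sum_abs _ _).trans ?_
        rw [← mul_one (ε / 2), ← hone, Finset.mul_sum]
        refine Finset.sum_le_sum fun n _ => ?_
        rw [abs_mul, abs_of_nonneg (he0 K n y)]
        by_cases hn : y ∈ Ioc (S (n - 1) / K) (S n / K)
        · refine mul_le_mul_of_nonneg_right ?_ (he0 K n y)
          have h6 : ⌊(y - d) * K⌋₊ < n := by
            by_contra h
            have := div_le_div_of_nonneg_right (hS (not_lt.1 h)) hK.le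
            linarith [hn.2]
          have h7 : n ≤ ⌊(y + d) * K⌋₊ := by
            by_contra h
            have := div_le_div_of_nonneg_right (hS (show ⌊(y + d) * K⌋₊ ≤ n - 1 by omega)) hK.le
            linarith [hn.1]
          have h8 : y - d < n / K := by
            rw [lt_div_iff₀ hK]
            exact (Nat.floor_lt (mul_nonneg (by linarith) hK.le)).1 h6
          have h9 : n / K ≤ y + d := by
            rw [div_le_iff₀ hK]
            exact (Nat.le_floor_iff (mul_nonneg (by linarith) hK.le)).1 h7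
          have := hδf (x := n / K) (by rw [Real.dist_eq, abs_lt]; constructor <;> linarith)
          rw [Real.dist_eq] at this
          exact this.le
        · simp only [e, indicator_of_notMem hn, mul_zero, le_refl]
      · have hout : y < α ∨ β < y := by
          simp only [mem_Ioo, not_and_or, not_lt] at hin
          rcases hin with h | h
          · exact Or.inl (lt_of_le_of_ne h hyα)
          · exact Or.inr (lt_of_le_of_ne h hyβ.symm)
        rw [indicator_of_notMem (fun h => hin ⟨h.1, lt_of_le_of_ne h.2 hyβ⟩)]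
        refine tendsto_const_nhds.congr' ?_
        have hev : ∀ᶠ K in atTop, y ∉ Ioc (S ⌊α * K⌋₊ / K) (S ⌊β * K⌋₊ / K) := by
          rcases hout with h | h
          · filter_upwards [(hlim α hα).eventually (lt_mem_nhds h)] with K hK hy
            linarith [hy.1]
          · filter_upwards [(hlim β (hα.trans hαβ)).eventually (gt_mem_nhds h)] with K hK hy
            linarith [hy.2]
        filter_upwards [hev, eventually_gt_atTop 0] with K h1 hK
        have := hbound K hK y
        rw [indicator_of_notMem h1, mul_zero] at this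
        exact (abs_nonpos_iff.1 this).symm
  rw [integral_indicator measurableSet_Ioc, ← intervalIntegral.integral_of_le hαβ] at main
  refine main.congr' ?_
  filter_upwards [eventually_gt_atTop 0] with K hK using hint K hK

/-- Equidistribution of a nonnegative sequence with mean value `c > 0`. -/
theorem weighted_sum_tendsto {a : ℕ → ℝ} (ha : ∀ n, 0 ≤ a n) {c : ℝ} (hc : 0 < c)
    (hA : Tendsto (fun x : ℝ => (∑ k ∈ Finset.Icc 1 ⌊x⌋₊, a k) / x) atTop (𝓝 c))
    {α β : ℝ} (hα : 0 ≤ α) (hαβ : α ≤ β) {f : ℝ → ℝ} {M : ℝ} (hM : ∀ x ∈ Ioc α β, |f x| ≤ M)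
    (hf : ∀ᵐ x, x ∈ Ioo α β → ContinuousAt f x) :
    Tendsto (fun K : ℝ => (∑ n ∈ Finset.Ioc ⌊α * K⌋₊ ⌊β * K⌋₊, f (n / K) * a n) / K) atTop
      (𝓝 (c * ∫ x in α..β, f x)) := by
  have h1 : Tendsto (fun x : ℝ => (∑ k ∈ Finset.Icc 1 ⌊x⌋₊, a k / c) / x) atTop (𝓝 1) := by
    have := hA.div_const c
    rw [div_self hc.ne'] at this
    refine this.congr fun x => ?_
    rw [← Finset.sum_div, div_right_comm]
  have := (weighted_sum_tendsto_one (fun n => div_nonneg (ha n) hc.le) h1 hα hαβ hM hf).const_mul c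
  refine this.congr fun K => ?_
  rw [← mul_div_assoc, Finset.mul_sum]
  congr 1
  refine Finset.sum_congr rfl fun n _ => ?_
  field_simp

/-- Weighted sums over primes. -/
theorem prime_sum_tendsto {α β : ℝ} (hα : 0 ≤ α) (hαβ : α ≤ β) {f : ℝ → ℝ} {M : ℝ}
    (hM : ∀ x ∈ Ioc α β, |f x| ≤ M) (hf : ∀ᵐ x, x ∈ Ioo α β → ContinuousAt f x) :
    Tendsto (fun K : ℝ => (∑ p ∈ (Finset.Ioc ⌊α * K⌋₊ ⌊β * K⌋₊).filter Nat.Prime,
      f (p / K) * Real.log p) / K) atTop (𝓝 (∫ x in α..β, f x)) := by
  have h := weighted_sum_tendsto_one (a := fun n : ℕ => if n.Prime then Real.log n else 0)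
    (fun n => by split_ifs; exacts [Real.log_natCast_nonneg n, le_rfl])
    (theta_tendsto.congr fun x => by rw [← Finset.sum_filter]; rfl) hα hαβ hM hf
  refine h.congr fun K => ?_
  rw [Finset.sum_filter]
  congr 1
  exact Finset.sum_congr rfl fun n _ => by split_ifs <;> simp

/-- Weighted sums over primes in an arithmetic progression. -/
theorem prime_sum_AP_tendsto {q : ℕ} [NeZero q] {r : ZMod q} (hr : IsUnit r) {α β : ℝ}
    (hα : 0 ≤ α) (hαβ : α ≤ β) {f : ℝ → ℝ} {M : ℝ}
    (hM : ∀ x ∈ Ioc α β, |f x| ≤ M) (hf : ∀ᵐ x, x ∈ Ioo α β → ContinuousAt f x) :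
    Tendsto (fun K : ℝ => (∑ p ∈ (Finset.Ioc ⌊α * K⌋₊ ⌊β * K⌋₊).filter
      (fun p : ℕ => p.Prime ∧ (p : ZMod q) = r), f (p / K) * Real.log p) / K) atTop
      (𝓝 ((q.totient : ℝ)⁻¹ * ∫ x in α..β, f x)) := by
  have hq : (0 : ℝ) < (q.totient : ℝ)⁻¹ := by
    have := Nat.totient_pos.2 (NeZero.pos q)
    positivity
  have h := weighted_sum_tendsto
    (a := fun n : ℕ => if n.Prime ∧ (n : ZMod q) = r then Real.log n else 0)
    (fun n => by split_ifs; exacts [Real.log_natCast_nonneg n, le_rfl]) hq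
    ((thetaAP_tendsto hr).congr fun x => by rw [← Finset.sum_filter]; rfl) hα hαβ hM hf
  refine h.congr fun K => ?_
  rw [Finset.sum_filter]
  congr 1
  exact Finset.sum_congr rfl fun n _ => by split_ifs <;> simp

/-- A function continuous off a countable set is continuous almost everywhere. -/
lemma ae_continuousAt_of_countable {f : ℝ → ℝ} {s D : Set ℝ} (hD : D.Countable)
    (h : ∀ x ∈ s, x ∉ D → ContinuousAt f x) : ∀ᵐ x, x ∈ s → ContinuousAt f x := by
  filter_upwards [hD.ae_notMem volume] with x hx hs using h x hs hx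

end Pool.Agent.Lib.PNT
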