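import Mathlib

/-!
The Wiener-Ikehara theorem, in Ikehara's form for monotone functions.
-/

set_option autoImplicit false

namespace Pool.Agent.Lib.PNT

open MeasureTheory Filter Topology Complex FourierTransform Real Set

lemma fourier_shift (k : ℝ → ℂ) (y u : ℝ) :
    𝓕 (fun t : ℝ => cexp (((2 * π * t * y : ℝ) : ℂ) * I) * k t) u = 𝓕 k (u - y) := by
  rw [fourier_real_eq_integral_exp_smul, fourier_real_eq_integral_exp_smul]
  congr 1
  funext t
  simp only [smul_eq_mul]
  rw [← mul_assoc, ← Complex.exp_add]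
  congr 2
  push_cast
  ring

lemma fourier_scale (k : ℝ → ℂ) {l : ℝ} (hl : 0 < l) (u : ℝ) :
    𝓕 (fun t : ℝ => k (t / l)) u = l * 𝓕 k (l * u) := by
  rw [fourier_real_eq_integral_exp_smul, fourier_real_eq_integral_exp_smul]
  have := Measure.integral_comp_div
    (fun v : ℝ => cexp (((-2 * π * v * (l * u) : ℝ) : ℂ) * I) • k v) l
  rw [abs_of_pos hl, real_smul] at this
  rw [← this]
  congr 1
  funext t
  congr 4
  field_simp

/-- The Fourier step. -/
theorem fourier_step {b : ℝ → ℂ} {C : ℝ} (hb : AEStronglyMeasurable b volume)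
    (hC : ∀ u, ‖b u‖ ≤ C) (hb0 : ∀ u, u ≤ 0 → b u = 0) {H : ℂ → ℂ}
    (hH : ContinuousOn H {s | 0 ≤ s.re})
    (hL : ∀ s : ℂ, 0 < s.re → H s = ∫ u : ℝ, cexp (-s * u) * b u)
    {k : ℝ → ℂ} (hk : Continuous k) (hks : HasCompactSupport k) (hK : Integrable (𝓕 k)) :
    Tendsto (fun y : ℝ => ∫ u, 𝓕 k (u - y) * b u) atTop (𝓝 0) := by
  have hki : Integrable k := hk.integrable_of_hasCompactSupport hks
  have hC0 : 0 ≤ C := (norm_nonneg _).trans (hC 0)
  -- a bound for `H` on the relevant compact set
  obtain ⟨M, hM⟩ : ∃ M, ∀ ε ∈ Icc (0 : ℝ) 1, ∀ t ∈ tsupport k,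
      ‖H (ε + 2 * π * t * I)‖ ≤ M := by
    have hc : IsCompact (Icc (0 : ℝ) 1 ×ˢ tsupport k) := isCompact_Icc.prod hks
    have hcont : ContinuousOn (fun p : ℝ × ℝ => H (p.1 + 2 * π * p.2 * I))
        (Icc (0 : ℝ) 1 ×ˢ tsupport k) := by
      refine hH.comp (by fun_prop) ?_
      intro p hp
      simpa using hp.1.1
    obtain ⟨M, hM⟩ := hc.exists_bound_of_continuousOn hcont
    exact ⟨M, fun ε hε t ht => hM (ε, t) ⟨hε, ht⟩⟩
  have hcontH : ∀ ε : ℝ, 0 ≤ ε → Continuous (fun t : ℝ => H (ε + 2 * π * t * I)) := by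
    intro ε hε
    refine hH.comp_continuous (by fun_prop) fun t => ?_
    simpa using hε
  have key : ∀ y : ℝ, ∫ u, 𝓕 k (u - y) * b u =
      𝓕 (fun t : ℝ => k t * H (((0 : ℝ) : ℂ) + 2 * π * t * I)) (-y) := by
    intro y
    let ε : ℕ → ℝ := fun n => 1 / ((n : ℝ) + 1)
    have hε0 : ∀ n, 0 < ε n := fun n => by positivity
    have hε1 : ∀ n, ε n ≤ 1 := fun n => by
      simp only [ε]; rw [div_le_one (by positivity)]; linarith [Nat.cast_nonneg (α := ℝ) n]
    have hεt : Tendsto ε atTop (𝓝 0) := tendsto_one_div_add_atTop_nhds_zero_nat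
    let ky : ℝ → ℂ := fun t => cexp (((2 * π * t * y : ℝ) : ℂ) * I) * k t
    have hkyn : ∀ t, ‖ky t‖ = ‖k t‖ := fun t => by
      simp only [ky]; rw [norm_mul, norm_exp_ofReal_mul_I, one_mul]
    have hkyc : Continuous ky := by simp only [ky]; fun_prop
    have hkyi : Integrable ky := hki.mono hkyc.aestronglyMeasurable
      (Eventually.of_forall fun t => (hkyn t).le)
    have hbn : ∀ (n : ℕ) (u : ℝ), ‖cexp (-(ε n : ℂ) * u) * b u‖ ≤
        (Ioi (0 : ℝ)).indicator (fun u => C * Real.exp (-ε n * u)) u := by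
      intro n u
      by_cases hu : u ∈ Ioi (0 : ℝ)
      · rw [indicator_of_mem hu, norm_mul, Complex.norm_exp, mul_comm]
        simp only [neg_mul, neg_re, mul_re, ofReal_re, ofReal_im, mul_zero, sub_zero]
        exact mul_le_mul_of_nonneg_right (hC u) (Real.exp_pos _).le
      · rw [indicator_of_notMem hu, hb0 u (not_lt.1 hu)]; simp
    have hbm : ∀ n, AEStronglyMeasurable (fun u : ℝ => cexp (-(ε n : ℂ) * u) * b u) volume :=
      fun n => (Continuous.aestronglyMeasurable (by fun_prop)).mul hb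
    have hbi : ∀ n, Integrable (fun u : ℝ => cexp (-(ε n : ℂ) * u) * b u) := by
      intro n
      refine Integrable.mono' ?_ (hbm n) (Eventually.of_forall (hbn n))
      rw [integrable_indicator_iff measurableSet_Ioi]
      exact (exp_neg_integrableOn_Ioi 0 (hε0 n)).const_mul C
    have hid : ∀ n, ∫ u, 𝓕 k (u - y) * (cexp (-(ε n : ℂ) * u) * b u) =
        ∫ t : ℝ, ky t * H (ε n + 2 * π * t * I) := by
      intro n
      have h1 : ∫ u, 𝓕 ky u • (cexp (-(ε n : ℂ) * u) * b u) =
          ∫ t, ky t • 𝓕 (fun u : ℝ => cexp (-(ε n : ℂ) * u) * b u) t := by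
        simpa using! (VectorFourier.integral_fourierIntegral_smul_eq_flip (L := innerₗ ℝ)
          Real.continuous_fourierChar continuous_inner hkyi (hbi n))
      simp only [smul_eq_mul] at h1
      have h2 : ∀ u, 𝓕 ky u = 𝓕 k (u - y) := fourier_shift k y
      simp_rw [h2] at h1
      rw [h1]
      congr 1
      funext t
      congr 1
      rw [hL _ (by simpa using hε0 n), fourier_real_eq_integral_exp_smul]
      congr 1
      funext u
      rw [smul_eq_mul, ← mul_assoc, ← Complex.exp_add]
      congr 2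
      push_cast
      ring
    have hKy : Integrable (fun u => 𝓕 k (u - y)) := hK.comp_sub_right y
    have lim1 : Tendsto (fun n => ∫ u, 𝓕 k (u - y) * (cexp (-(ε n : ℂ) * u) * b u)) atTop
        (𝓝 (∫ u, 𝓕 k (u - y) * b u)) := by
      refine tendsto_integral_of_dominated_convergence (fun u => ‖𝓕 k (u - y)‖ * C)
        (fun n => hKy.aestronglyMeasurable.mul (hbm n)) (hKy.norm.mul_const C)
        (fun n => Eventually.of_forall fun u => ?_) (Eventually.of_forall fun u => ?_)
      · rw [norm_mul]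
        refine mul_le_mul_of_nonneg_left ((hbn n u).trans ?_) (norm_nonneg _)
        by_cases hu : u ∈ Ioi (0 : ℝ)
        · rw [indicator_of_mem hu]
          refine mul_le_of_le_one_right hC0 (Real.exp_le_one_iff.2 ?_)
          have := mul_pos (hε0 n) hu
          linarith
        · rw [indicator_of_notMem hu]; exact hC0
      · have h3 : Continuous (fun e : ℝ => 𝓕 k (u - y) * (cexp (-(e : ℂ) * u) * b u)) := by
          fun_prop
        simpa [Function.comp_def] using (h3.tendsto 0).comp hεt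
    have lim2 : Tendsto (fun n => ∫ t : ℝ, ky t * H (ε n + 2 * π * t * I)) atTop
        (𝓝 (∫ t : ℝ, ky t * H (((0 : ℝ) : ℂ) + 2 * π * t * I))) := by
      refine tendsto_integral_of_dominated_convergence (fun t => ‖k t‖ * M)
        (fun n => (hkyc.mul (hcontH _ (hε0 n).le)).aestronglyMeasurable) (hki.norm.mul_const M)
        (fun n => Eventually.of_forall fun t => ?_) (Eventually.of_forall fun t => ?_)
      · rw [norm_mul, hkyn]
        by_cases ht : t ∈ tsupport k
        · exact mul_le_mul_of_nonneg_left (hM _ ⟨(hε0 n).le, hε1 n⟩ t ht) (norm_nonneg _)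
        · rw [image_eq_zero_of_notMem_tsupport ht]; simp
      · refine Tendsto.const_mul _ ?_
        have h3 : ContinuousWithinAt H {s | 0 ≤ s.re} (((0 : ℝ) : ℂ) + 2 * π * t * I) :=
          hH _ (by simp)
        refine h3.tendsto.comp (tendsto_nhdsWithin_iff.2 ⟨?_, Eventually.of_forall fun n => ?_⟩)
        · have h4 : Continuous (fun e : ℝ => (e : ℂ) + 2 * π * t * I) := by fun_prop
          exact (h4.tendsto 0).comp hεt
        · simpa using (hε0 n).le
    rw [tendsto_nhds_unique lim1 (by simp_rw [hid]; exact lim2), fourier_real_eq_integral_exp_smul]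
    congr 1
    funext t
    simp only [ky, smul_eq_mul, mul_assoc]
    congr 3
    push_cast
    ring
  simp_rw [key]
  exact (Real.zero_at_infty_fourier _).comp
    (tendsto_neg_atTop_atBot.mono_right atBot_le_cocompact)

/-- A nonnegative kernel whose Fourier transform has compact support. -/
theorem exists_kernel₀ : ∃ (k : ℝ → ℂ) (K : ℝ → ℝ), Continuous k ∧ HasCompactSupport k ∧
    (∀ u, 𝓕 k u = K u) ∧ (∀ u, 0 ≤ K u) ∧ Integrable K ∧ 0 < ∫ u, K u := by
  let φ : ContDiffBump (0 : ℝ) := default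
  let f : ℝ → ℂ := fun t => (φ t : ℂ)
  have hfc : Continuous f := Complex.continuous_ofReal.comp φ.continuous
  have hfs : HasCompactSupport f := φ.hasCompactSupport.comp_left (g := fun x : ℝ => (x : ℂ)) (by simp)
  have hfi : Integrable f := hfc.integrable_of_hasCompactSupport hfs
  let F : SchwartzMap ℝ ℂ := hfs.toSchwartzMap (Complex.ofRealCLM.contDiff.comp φ.contDiff)
  have hF : ∀ u, (𝓕 F) u = 𝓕 f u := fun u => rfl
  have hreal : ∀ u, (starRingEnd ℂ) (𝓕 f u) = 𝓕 f u := by
    intro u
    rw [fourier_real_eq_integral_exp_smul, ← integral_conj, ← integral_neg_eq_self]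
    congr 1
    funext t
    simp only [f, smul_eq_mul, map_mul, conj_ofReal, φ.neg, ← exp_conj, conj_I]
    congr 2
    push_cast
    ring
  have hcont : Continuous (fun u => ‖𝓕 f u‖ ^ 2) := by
    have := (𝓕 F).continuous
    exact (this.norm).pow 2
  have hint : Integrable (fun u => ‖𝓕 f u‖ ^ 2) := by
    have := ((𝓕 F).memLp 2 (volume : Measure ℝ)).integrable_norm_pow (p := 2) (by norm_num)
    exact this
  refine ⟨MeasureTheory.convolution f f (ContinuousLinearMap.mul ℂ ℂ) volume,
    fun u => ‖𝓕 f u‖ ^ 2, hfs.continuous_convolution_right _ hfi.locallyIntegrable hfc,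
    hfs.convolution _ hfs, fun u => ?_, fun u => by positivity, hint, ?_⟩
  · rw [Real.fourier_mul_convolution_eq hfi hfi]
    nth_rewrite 2 [← hreal]
    rw [Complex.mul_conj']
    push_cast; rfl
  · refine integral_pos_of_integrable_nonneg_nonzero (x := 0) hcont hint (fun u => by positivity) ?_
    have : 𝓕 f 0 = ((∫ t, φ t : ℝ) : ℂ) := by
      rw [fourier_real_eq_integral_exp_smul, ← integral_complex_ofReal]
      simp [f]
    have h2 := φ.integral_pos (μ := volume)
    simp only [this, norm_real, ne_eq, pow_eq_zero_iff, OfNat.ofNat_ne_zero, not_false_eq_true,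
      norm_eq_zero]
    exact h2.ne'

/-- A concentrated kernel. -/
theorem exists_kernel {δ η : ℝ} (hδ : 0 < δ) (hη : 0 < η) :
    ∃ (k : ℝ → ℂ) (K : ℝ → ℝ), Continuous k ∧ HasCompactSupport k ∧
    (∀ u, 𝓕 k u = K u) ∧ (∀ u, 0 ≤ K u) ∧ Integrable K ∧ ∫ u, K u = 1 ∧
      ∫ u in (Icc (-δ) δ)ᶜ, K u ≤ η := by
  obtain ⟨k, K, h1, h2, h3, h4, h5, h6⟩ := exists_kernel₀
  set I₀ := ∫ u, K u with hI
  have ht : Tendsto (fun R : ℝ => ∫ u, (Icc (-R) R)ᶜ.indicator K u) atTop (𝓝 (∫ _u : ℝ, (0 : ℝ))) := by
    refine tendsto_integral_filter_of_dominated_convergence K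
      (Eventually.of_forall fun R => h5.aestronglyMeasurable.indicator measurableSet_Icc.compl)
      (Eventually.of_forall fun R => Eventually.of_forall fun u => ?_) h5
      (Eventually.of_forall fun u => ?_)
    · rw [Real.norm_of_nonneg (indicator_nonneg (fun u _ => h4 u) u)]
      exact indicator_le_self' (fun u _ => h4 u) u
    · refine tendsto_const_nhds.congr' ?_
      filter_upwards [eventually_ge_atTop |u|] with R hR
      rw [indicator_of_notMem]
      simp only [mem_compl_iff, not_not]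
      exact abs_le.1 hR
  rw [integral_zero] at ht
  obtain ⟨R, hR, hR0⟩ := ((ht.eventually (ge_mem_nhds (mul_pos h6 hη))).and
    (eventually_gt_atTop 0)).exists
  set l := R / δ with hl
  have hl0 : 0 < l := by positivity
  refine ⟨fun t => (I₀⁻¹ : ℝ) * k (t / l), fun u => I₀⁻¹ * (l * K (l * u)), by fun_prop, ?_,
    fun u => ?_, fun u => mul_nonneg (by positivity) (mul_nonneg hl0.le (h4 _)), ?_, ?_, ?_⟩
  · refine HasCompactSupport.mul_left ?_
    have := h2.comp_homeomorph (Homeomorph.mulRight₀ l⁻¹ (inv_pos.2 hl0).ne')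
    exact this
  · have : 𝓕 (fun t : ℝ => ((I₀⁻¹ : ℝ) : ℂ) * k (t / l)) u =
        ((I₀⁻¹ : ℝ) : ℂ) * 𝓕 (fun t : ℝ => k (t / l)) u := by
      rw [fourier_real_eq_integral_exp_smul, fourier_real_eq_integral_exp_smul,
        ← integral_const_mul]
      congr 1; funext t; simp only [smul_eq_mul]; ring
    rw [this, fourier_scale k hl0, h3]
    push_cast; rfl
  · exact ((h5.comp_mul_left' hl0.ne').const_mul l).const_mul _
  · rw [integral_const_mul, integral_const_mul, Measure.integral_comp_mul_left K l,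
      abs_of_pos (inv_pos.2 hl0), smul_eq_mul, ← hI]
    field_simp
  · rw [← integral_indicator measurableSet_Icc.compl]
    have : (Icc (-δ) δ)ᶜ.indicator (fun u => I₀⁻¹ * (l * K (l * u))) =
        fun u => I₀⁻¹ * (l * (Icc (-R) R)ᶜ.indicator K (l * u)) := by
      funext u
      have hiff : u ∈ (Icc (-δ) δ)ᶜ ↔ l * u ∈ (Icc (-R) R)ᶜ := by
        have hR' : R = l * δ := by rw [hl]; field_simp
        simp only [mem_compl_iff, mem_Icc, hR', ← mul_neg, mul_le_mul_iff_right₀ hl0]
      by_cases hu : u ∈ (Icc (-δ) δ)ᶜ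
      · rw [indicator_of_mem hu, indicator_of_mem (hiff.1 hu)]
      · rw [indicator_of_notMem hu, indicator_of_notMem (fun h => hu (hiff.2 h))]; simp
    rw [this, integral_const_mul, integral_const_mul,
      Measure.integral_comp_mul_left ((Icc (-R) R)ᶜ.indicator K) l,
      abs_of_pos (inv_pos.2 hl0), smul_eq_mul, ← mul_assoc l, mul_inv_cancel₀ hl0.ne', one_mul,
      inv_mul_le_iff₀ h6]
    exact hR

/-- The Tauberian step. -/
theorem tauber_step {g : ℝ → ℝ} {C c : ℝ} (hg : Measurable g) (h0 : ∀ u, 0 ≤ g u)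
    (hC : ∀ u, g u ≤ C) (hc : 0 ≤ c) (hslow : ∀ u v, u ≤ v → Real.exp (u - v) * g u ≤ g v)
    (h : ∀ δ η : ℝ, 0 < δ → 0 < η → ∃ K : ℝ → ℝ, (∀ u, 0 ≤ K u) ∧ Integrable K ∧ ∫ u, K u = 1 ∧
      ∫ u in (Icc (-δ) δ)ᶜ, K u ≤ η ∧ Tendsto (fun y => ∫ v, K v * g (v + y)) atTop (𝓝 c)) :
    Tendsto g atTop (𝓝 c) := by
  have hC0 : 0 ≤ C := (h0 0).trans (hC 0)
  have hint : ∀ K : ℝ → ℝ, Integrable K → ∀ y, Integrable (fun v => K v * g (v + y)) := by
    intro K hK y
    refine hK.mul_bdd (c := C) (hg.comp (measurable_add_const y)).aestronglyMeasurable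
      (Eventually.of_forall fun v => ?_)
    rw [Real.norm_of_nonneg (h0 _)]; exact hC _
  rw [tendsto_order]
  constructor
  · intro a ha
    -- choose `δ` with `a < exp (-2δ) (c - δ - C δ)`
    have hcont : Continuous (fun δ : ℝ => Real.exp (-(2 * δ)) * (c - δ - C * δ)) := by fun_prop
    have h1 : ∀ᶠ δ in 𝓝[>] (0 : ℝ), a < Real.exp (-(2 * δ)) * (c - δ - C * δ) := by
      refine nhdsWithin_le_nhds ((hcont.tendsto 0).eventually (lt_mem_nhds ?_))
      simpa using ha
    obtain ⟨δ, hδa, hδ⟩ := (h1.and self_mem_nhdsWithin).exists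
    replace hδ : 0 < δ := hδ
    obtain ⟨K, hK0, hKi, hK1, hKt, hlim⟩ := h δ δ hδ hδ
    have h2 := (hlim.comp (tendsto_atTop_add_const_right atTop (-δ) tendsto_id)).eventually
      (lt_mem_nhds (show c - δ < c by linarith))
    filter_upwards [h2] with x hx
    simp only [Function.comp, id] at hx
    have h3 : ∫ v, K v * g (v + (x + -δ)) ≤
        ∫ v, (K v * (Real.exp (2 * δ) * g x) + (Icc (-δ) δ)ᶜ.indicator K v * C) := by
      refine integral_mono (hint K hKi _) ((hKi.mul_const _).add
        ((hKi.indicator measurableSet_Icc.compl).mul_const _)) fun v => ?_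
      have hgx := h0 x
      have hKv := hK0 v
      by_cases hv : v ∈ (Icc (-δ) δ)ᶜ
      · simp only [indicator_of_mem hv]
        have : K v * g (v + (x + -δ)) ≤ K v * C := mul_le_mul_of_nonneg_left (hC _) hKv
        have : 0 ≤ K v * (Real.exp (2 * δ) * g x) := by positivity
        linarith
      · simp only [indicator_of_notMem hv, zero_mul, add_zero]
        simp only [mem_compl_iff, not_not, mem_Icc] at hv
        refine mul_le_mul_of_nonneg_left ?_ hKv
        have h4 := hslow (v + (x + -δ)) x (by linarith [hv.2])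
        have h5 : Real.exp (-(2 * δ)) * g (v + (x + -δ)) ≤ g x :=
          le_trans (mul_le_mul_of_nonneg_right (Real.exp_le_exp.2 (by linarith [hv.1])) (h0 _)) h4
        rwa [Real.exp_neg, inv_mul_le_iff₀ (Real.exp_pos _)] at h5
    rw [integral_add (hKi.mul_const _) ((hKi.indicator measurableSet_Icc.compl).mul_const _),
      integral_mul_const, integral_mul_const, hK1, one_mul,
      integral_indicator measurableSet_Icc.compl] at h3
    have h6 : (∫ u in (Icc (-δ) δ)ᶜ, K u) * C ≤ δ * C := mul_le_mul_of_nonneg_right hKt hC0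
    have h7 : c - δ - C * δ ≤ Real.exp (2 * δ) * g x := by linarith
    rw [← inv_mul_le_iff₀ (Real.exp_pos _), ← Real.exp_neg] at h7
    linarith
  · intro a ha
    have ha0 : 0 < a := lt_of_le_of_lt hc ha
    have hcont : Continuous (fun δ : ℝ => Real.exp (-(2 * δ)) * (1 - δ) * a - δ) := by fun_prop
    have h1 : ∀ᶠ δ in 𝓝[>] (0 : ℝ), c < Real.exp (-(2 * δ)) * (1 - δ) * a - δ := by
      refine nhdsWithin_le_nhds ((hcont.tendsto 0).eventually (lt_mem_nhds ?_))
      simpa using ha
    obtain ⟨δ, hδa, hδ⟩ := (h1.and self_mem_nhdsWithin).exists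
    replace hδ : 0 < δ := hδ
    obtain ⟨K, hK0, hKi, hK1, hKt, hlim⟩ := h δ δ hδ hδ
    have h2 := (hlim.comp (tendsto_atTop_add_const_right atTop δ tendsto_id)).eventually
      (gt_mem_nhds (show c < c + δ by linarith))
    filter_upwards [h2] with x hx
    simp only [Function.comp, id] at hx
    have h3 : ∫ v, (Icc (-δ) δ).indicator K v * (Real.exp (-(2 * δ)) * g x) ≤
        ∫ v, K v * g (v + (x + δ)) := by
      refine integral_mono ((hKi.indicator measurableSet_Icc).mul_const _) (hint K hKi _)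
        fun v => ?_
      have hKv := hK0 v
      by_cases hv : v ∈ Icc (-δ) δ
      · simp only [indicator_of_mem hv]
        refine mul_le_mul_of_nonneg_left ?_ hKv
        have h4 := hslow x (v + (x + δ)) (by linarith [hv.1])
        exact le_trans (mul_le_mul_of_nonneg_right
          (Real.exp_le_exp.2 (by linarith [hv.2])) (h0 _)) h4
      · simp only [indicator_of_notMem hv, zero_mul]
        exact mul_nonneg hKv (h0 _)
    rw [integral_mul_const, integral_indicator measurableSet_Icc] at h3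
    have h5 := integral_add_compl (measurableSet_Icc (a := -δ) (b := δ)) hKi
    have h6 : 1 - δ ≤ ∫ u in Icc (-δ) δ, K u := by linarith
    by_contra hle
    push Not at hle
    have he := Real.exp_pos (-(2 * δ))
    have h7 : (1 - δ) * (Real.exp (-(2 * δ)) * g x) ≤ c + δ :=
      le_trans (mul_le_mul_of_nonneg_right h6 (mul_nonneg he.le (h0 x))) (h3.trans hx.le)
    have h8 : 0 < 1 - δ := by
      by_contra h9
      push Not at h9
      have : Real.exp (-(2 * δ)) * (1 - δ) * a ≤ 0 :=
        mul_nonpos_of_nonpos_of_nonneg (mul_nonpos_of_nonneg_of_nonpos he.le h9) ha0.le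
      linarith
    have h9 : (1 - δ) * (Real.exp (-(2 * δ)) * a) ≤ (1 - δ) * (Real.exp (-(2 * δ)) * g x) := by
      gcongr
    linarith

/-- Ikehara's theorem on the logarithmic scale. -/
theorem ikehara {g : ℝ → ℝ} {C c : ℝ} (hg : Measurable g) (h0 : ∀ u, 0 ≤ g u)
    (hC : ∀ u, g u ≤ C) (hc : 0 ≤ c) (hslow : ∀ u v, u ≤ v → Real.exp (u - v) * g u ≤ g v)
    {H : ℂ → ℂ} (hH : ContinuousOn H {s | 0 ≤ s.re})
    (hL : ∀ s : ℂ, 0 < s.re → H s = ∫ u in Ioi (0 : ℝ), cexp (-s * u) * ((g u - c : ℝ) : ℂ)) :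
    Tendsto g atTop (𝓝 c) := by
  refine tauber_step hg h0 hC hc hslow fun δ η hδ hη => ?_
  obtain ⟨k, K, h1, h2, h3, h4, h5, h6, h7⟩ := exists_kernel hδ hη
  refine ⟨K, h4, h5, h6, h7, ?_⟩
  have hC0 : 0 ≤ C := (h0 0).trans (hC 0)
  have hgc : ∀ u, |g u - c| ≤ C + c := fun u => by
    rw [abs_le]; constructor <;> linarith [h0 u, hC u]
  let b : ℝ → ℝ := (Ioi (0 : ℝ)).indicator fun u => g u - c
  let b' : ℝ → ℝ := (Ioi (0 : ℝ))ᶜ.indicator fun u => g u - c
  have hbm : Measurable b := (hg.sub_const c).indicator measurableSet_Ioi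
  have hbm' : Measurable b' := (hg.sub_const c).indicator measurableSet_Ioi.compl
  have hbb : ∀ u, ‖b u‖ ≤ C + c := fun u => (norm_indicator_le_norm_self _ _).trans (hgc u)
  have hbb' : ∀ u, ‖b' u‖ ≤ C + c := fun u => (norm_indicator_le_norm_self _ _).trans (hgc u)
  have hKi : Integrable (𝓕 k) := by
    have : 𝓕 k = fun u => (K u : ℂ) := funext h3
    rw [this]; exact h5.ofReal
  have t1 := fourier_step (b := fun u => (b u : ℂ)) (C := C + c)
    (Complex.measurable_ofReal.comp hbm).aestronglyMeasurable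
    (fun u => by rw [norm_real]; exact hbb u)
    (fun u hu => by simp only [b]; rw [indicator_of_notMem (by simpa using hu)]; simp) hH
    (fun s hs => by
      rw [hL s hs, ← integral_indicator measurableSet_Ioi]
      congr 1
      funext u
      by_cases hu : u ∈ Ioi (0 : ℝ)
      · simp only [b, indicator_of_mem hu]
      · simp [b, indicator_of_notMem hu]) h1 h2 hKi
  have t2 : Tendsto (fun y : ℝ => ∫ v, K v * b (v + y)) atTop (𝓝 0) := by
    have := (Complex.continuous_re.tendsto 0).comp t1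
    rw [zero_re] at this
    refine Tendsto.congr (fun y => ?_) this
    simp only [h3, Function.comp_def]
    rw [← integral_add_right_eq_self (fun u => (K (u - y) : ℂ) * (b u : ℂ)) y]
    simp only [add_sub_cancel_right, ← ofReal_mul]
    rw [integral_complex_ofReal, ofReal_re]
  have t3 : Tendsto (fun y : ℝ => ∫ v, K v * b' (v + y)) atTop (𝓝 (∫ _v : ℝ, (0 : ℝ))) := by
    refine tendsto_integral_filter_of_dominated_convergence (fun v => ‖K v‖ * (C + c))
      (Eventually.of_forall fun y => h5.aestronglyMeasurable.mul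
        (hbm'.comp (measurable_add_const y)).aestronglyMeasurable)
      (Eventually.of_forall fun y => Eventually.of_forall fun v => ?_) (h5.norm.mul_const _)
      (Eventually.of_forall fun v => ?_)
    · rw [norm_mul]; exact mul_le_mul_of_nonneg_left (hbb' _) (norm_nonneg _)
    · refine tendsto_const_nhds.congr' ?_
      filter_upwards [eventually_gt_atTop (-v)] with y hy
      simp only [b']
      rw [indicator_of_notMem, mul_zero]
      simp only [mem_compl_iff, mem_Ioi, not_not]
      linarith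
  rw [integral_zero] at t3
  have t4 := (t2.add t3).add_const c
  simp only [add_zero, zero_add] at t4
  refine t4.congr fun y => ?_
  have i1 : Integrable (fun v => K v * b (v + y)) := h5.mul_bdd (c := C + c)
    (hbm.comp (measurable_add_const y)).aestronglyMeasurable (Eventually.of_forall fun v => hbb _)
  have i2 : Integrable (fun v => K v * b' (v + y)) := h5.mul_bdd (c := C + c)
    (hbm'.comp (measurable_add_const y)).aestronglyMeasurable (Eventually.of_forall fun v => hbb' _)
  have e : c = ∫ v, K v * c := by rw [integral_mul_const, h6, one_mul]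
  conv_lhs => rw [e]
  have i3 : Integrable (fun v => K v * b (v + y) + K v * b' (v + y)) := i1.add i2
  rw [← integral_add i1 i2, ← integral_add i3 (h5.mul_const c)]
  congr 1
  funext v
  have := indicator_self_add_compl_apply (Ioi (0 : ℝ)) (fun u => g u - c) (v + y)
  simp only [b, b']
  linear_combination (K v) * this

end Pool.Agent.Lib.PNT
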